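import Pool.Agent.K9h33.FLG.Fin

/-!
# Density of rational points on conic bundles, and on other double covers, whose equation has a small
# degree only on a flag

Let `K` be a number field and let `X : w² = f(x)` be a double cover of an affine space of any dimension.
The variables are distributed to levels `0, 1, 2, …` (`c i` is the level of `x_i`). We suppose that `f` is
of *flag type*: for each `j`, the polynomial which is obtained from `f` by setting all the variables of
the levels above `j` to zero (`restrict c j f`) is `h² q` with polynomials `h`, `q` such that

* the total degree of `q` in the variables of the level `j` is at most two, or
* the total degree of `q` in the variables of the level `j` is at most four, and one of these variables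
  occurs in the linear part of `f`;

and `f` has no constant term, and the linear part of `f` contains a variable of the level `0`.
Nothing is assumed about the monomials of `f` except for these conditions for the restrictions to the flag
of the linear subspaces given by the levels: the degree of `f` is arbitrary, in all variables below the
highest level.

Theorem. (1) One suitable point is enough, over any field: for all large prime numbers `p` and all number
fields `L` containing `K`, if there is a point `(t e, w)`, `w ≠ 0`, of `X` over `L`, where `e` is the
direction of a variable of the level `0` in the linear part of `f` and `t` is an algebraic integer
divisible by `p³`, then the points of `X` over `L` are Zariski dense in `X`.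

(2) The points of `X` over a suitable quadratic extension `L` of `K` (or over `L = K`) are Zariski
dense in `X`.

If the variables `y` of the highest level have degree at most two, `X` is a bundle of quadrics (conics, if
there is one such variable) over an affine space, with a rationally connected total space, so the answer to
Q1 is positive for it. For instance, let `X : w² = A(u,v) y² + B(u,v) y + C(u,v)` be a conic bundle over the
plane, where `A` and `B` are ARBITRARY polynomials, of any degrees, and `C` has the terms `α u + β v`,
`α β ≠ 0`, no constant term, degree at most four in `v`, and `C(u, 0)` has degree at most four. So the
discriminant `B² - 4 A C`, of arbitrarily large degree, can be a smooth curve, and the bisection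
`y = 0` of the conic bundle is an elliptic surface `w² = C(u, v)` over the line, of any Kodaira dimension
at most one. (All conic bundles over the plane are birational to some `w² = A y² + B y + C`.) The earlier
files for this problem treat conic bundles all of whose coefficients have degree at most four in blocks of
variables, or which have other fibrations in curves of genus one.

Proof. We choose a large prime number `p` and, for (2), `L = K(√f(p³, 0, …, 0))`, and a place of `L` above
`p`. Starting with the given point we move through the levels: a point `(z, w)` with `z ≡ 0`
and `0 ≠ |w| < |p|` at the place lies on the curves `w² = f(z + t e)` of genus at most one, `e` a vector in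
the directions of the next level. Because `|w|` is small, the difference of the two points over `t = 0` is
in the kernel of the reduction and of infinite order, so it has multiples which are close to the origin,
which give points with `t` close to `0`. The new ordinate is again small, and so we can go on. The points
with infinitely many values of `t`, for all `e`, are dense in the next level.
-/

set_option autoImplicit false

namespace Pool.Agent.Results.MP_b62148_ag.FlagDoubleCovers

open MvPolynomial NumberField

/-- The polynomial which is obtained from `f` by setting the variables of the levels above `j` to zero;
`c i` is the level of the variable `x_i`. -/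
noncomputable def restrict {K α : Type} [Field K] (c : α → ℕ) (j : ℕ) (f : MvPolynomial α K) :
    MvPolynomial α K :=
  aeval (fun i => if c i ≤ j then X i else 0) f

/-- `f` is of flag type with respect to the levels `c`: `f 0 = 0`, the linear part of `f` contains a
variable of the level `0`, and for each `j` the restriction of `f` to the levels at most `j` is `h² q`, where
the total degree of `q` in the variables of the level `j` is at most two, or it is at most four and the linear
part of `f` contains a variable of the level `j`. -/
def FlagType {K α : Type} [Field K] [Fintype α] (c : α → ℕ) (f : MvPolynomial α K) : Prop :=
  coeff 0 f = 0 ∧ (∃ i, c i = 0 ∧ coeff (Finsupp.single i 1) f ≠ 0) ∧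
  ∀ j, ∃ h q : MvPolynomial α K, restrict c j f = h ^ 2 * q ∧
    ((∀ d ∈ q.support, ∑ i with c i = j, d i ≤ 2) ∨
      ((∀ d ∈ q.support, ∑ i with c i = j, d i ≤ 4) ∧
        ∃ i, c i = j ∧ coeff (Finsupp.single i 1) f ≠ 0))

/-- The points over the extension `L` of `K` of the double cover `X : w² = f(x)` are Zariski dense in `X`:
a polynomial `g(w, x)` over `L` which vanishes at all of them is divisible by `w² - f(x)`. -/
def DensePoints {K α : Type} [Field K] (f : MvPolynomial α K) (L : Type) [Field L]
    [Algebra K L] : Prop :=
  ∀ g : MvPolynomial (Option α) L,
    (∀ (x : α → L) (w : L), w ^ 2 = eval x (map (algebraMap K L) f) →
      eval (fun o => o.elim w x) g = 0) →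
    (X none ^ 2 - rename some (map (algebraMap K L) f)) ∣ g

/-- Let `f` be a polynomial over a number field `K` in any finite set of variables, of flag type with
respect to some distribution of the variables to levels.

(1) Let `x_i` be a variable of level `0` in the linear part of `f`. For all large prime numbers `p`, all
number fields `L` containing `K` and all algebraic integers `t` in `L` divisible by `p³` such that
`f(0, …, t, …, 0)` (with `x_i = t`) is the square of a nonzero element of `L`, the points over `L` of the
double cover `X : w² = f(x)` are Zariski dense in `X`.

(2) There is an extension `L` of `K` of degree at most two such that the points of `X` over `L` are Zariski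
dense in `X`. -/
theorem result (K : Type) [Field K] [NumberField K] (α : Type) [Fintype α] [DecidableEq α]
    (c : α → ℕ) (f : MvPolynomial α K) (hf : FlagType c f) :
    (∀ i, c i = 0 → coeff (Finsupp.single i 1) f ≠ 0 →
      ∃ N : ℕ, ∀ p : ℕ, p.Prime → N < p → ∀ (L : Type) [Field L] [NumberField L] [Algebra K L]
        (t : 𝓞 L), (p : 𝓞 L) ^ 3 ∣ t → ∀ w : L, w ≠ 0 →
          w ^ 2 = aeval (Pi.single i (t : L)) f → DensePoints f L) ∧
    ∃ (L : Type) (_ : Field L) (_ : NumberField L) (_ : Algebra K L),
      Module.finrank K L ≤ 2 ∧ DensePoints f L :=
  ⟨fun i hi hfi => Pool.Agent.K9h33.FLG.flag_point K c f hf i hi hfi,
    Pool.Agent.K9h33.FLG.flag_quad K c f hf⟩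

end Pool.Agent.Results.MP_b62148_ag.FlagDoubleCovers
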