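import Pool.Agent.K9h33.NOD.Gen6

/-!
# Potential density for general double covers of products of projective spaces, branched in degree six
in one of the factors

Let `X` be a double cover of `ℙ^{a_1} × … × ℙ^{a_r} × ℙⁿ`, `n ≥ 2`, `r ≥ 1`, branched along a GENERAL
hypersurface of multidegree `(e_1, …, e_r, 6)` over a number field, where `e_j ≤ 4` for all `j` and
`e_j ≥ 1` and `a_j ≥ 1` for some `j`. Then the rational points of `X` are potentially dense.

If `n ≥ 3`, or `a_j ≥ 1` and `1 ≤ e_j ≤ 2` for some `j`, or `a_j ≥ 2` and `e_j ≤ 4` for some `j`, the
variety `X` is rationally connected (in the first case if `X` is Fano, for instance). Examples are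

* the Fano varieties of dimension `n + 1`, `n ≥ 3`, which are double covers of `ℙ¹ × ℙⁿ` branched in bidegree
  `(2, 6)`, and those of dimension `n + 2` which are double covers of `ℙ² × ℙⁿ` branched in bidegree
  `(2, 6)` or `(4, 6)`;
* the conic bundles over the plane which are double covers of `ℙ¹ × ℙ²` branched in bidegree `(2, 6)`; their
  discriminant curves are smooth of degree `12`, and they are fibred over `ℙ¹` in K3 surfaces;
* the varieties fibred over `ℙⁿ` in del Pezzo surfaces of degree two which are double covers of
  `ℙ² × ℙⁿ`, `n ≥ 2`, branched in bidegree `(4, 6)`.

In affine coordinates `X` is given by `w² = f(y, u)`, where `f` is a general polynomial whose degree in the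
block `j` of the variables `y` is at most `e_j`, and whose degree in the `u` is at most six.

Proof. For a general `X` there is a point `y` such that the branch locus in the fibre over `y` has a double
point and a direction in the tangent cone with contact of order exactly three: this is proved at the generic
point. The coefficients of a general polynomial in the special coordinates and the parameters of the
change of coordinates are algebraic over the coefficients of the transformed polynomial, because all
derivations which vanish on the latter vanish on the former (here the Hesse matrix of the double point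
enters); so a transcendence basis argument, and an ultrapower of the algebraic numbers, show that all
polynomials outside of a proper closed subset arise. Then the file `NodalFibreDoubleCovers` applies.
-/

set_option autoImplicit false

namespace Pool.Agent.Results.MP_b62148_ag.GeneralSexticProducts

open MvPolynomial NumberField

/-- The exponents of the monomials in the variables `y_i`, `i ∈ β`, and `u_o`, `o ∈ Option γ`, whose degree
in the variables `y_i` with `c i = j` (the block `j`) is at most `e j` for all `j`, and whose degree in the
variables `u` is at most six. -/
abbrev Exponent {β : Type} (γ : Type) [Fintype β] [Fintype γ] (c : β → ℕ) (e : ℕ → ℕ) : Type :=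
  {d : β ⊕ Option γ →₀ ℕ // (∀ j, ∑ i with c i = j, d (Sum.inl i) ≤ e j) ∧
    ∑ o, d (Sum.inr o) ≤ 6}

/-- The degree of `f(y, u)` in the block `j` of the variables `y` is at most `e j` for all `j`, and the
degree in the variables `u` is at most six. -/
def MultidegreeLE {K β γ : Type} [Field K] [Fintype β] [Fintype γ] (c : β → ℕ) (e : ℕ → ℕ)
    (f : MvPolynomial (β ⊕ Option γ) K) : Prop :=
  ∀ d ∈ f.support, (∀ j, ∑ i with c i = j, d (Sum.inl i) ≤ e j) ∧ ∑ o, d (Sum.inr o) ≤ 6

/-- The points over the extension `L` of `K` of the double cover `X : w² = f(x)` are Zariski dense in `X`:
a polynomial `g(w, x)` over `L` which vanishes at all of them is divisible by `w² - f(x)`. -/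
def DensePoints {K α : Type} [Field K] (f : MvPolynomial α K) (L : Type) [Field L]
    [Algebra K L] : Prop :=
  ∀ g : MvPolynomial (Option α) L,
    (∀ (x : α → L) (w : L), w ^ 2 = eval x (map (algebraMap K L) f) →
      eval (fun o => o.elim w x) g = 0) →
    (X none ^ 2 - rename some (map (algebraMap K L) f)) ∣ g

/-- Let the variables be `y_i`, `i ∈ β`, in blocks (`y_i` is in the block `c i`), and `u_o`,
`o ∈ Option γ` (at least two), and let `e j ≤ 4` be numbers, with `e j ≥ 1` for some nonempty block `j`.
Then there is a nonzero polynomial `Φ` with rational coefficients, in the coefficients of the polynomials of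
degree at most `e j` in the block `j` for all `j` and at most six in the `u`, such that for all number
fields `K` and all such polynomials `f` over `K` with `Φ(f) ≠ 0` there is a number field `L` containing
`K` such that the points over `L` of the double cover `X : w² = f(y, u)` are Zariski dense in `X`. -/
theorem result (β γ : Type) [Fintype β] [Fintype γ] [Nonempty γ] (c : β → ℕ) (e : ℕ → ℕ)
    (he : ∀ j, e j ≤ 4) (hc : ∃ i, 1 ≤ e (c i)) :
    ∃ Φ : MvPolynomial (Exponent γ c e) ℚ, Φ ≠ 0 ∧
      ∀ (K : Type) [Field K] [NumberField K] (f : MvPolynomial (β ⊕ Option γ) K),
        MultidegreeLE c e f → aeval (fun d : Exponent γ c e => coeff d.1 f) Φ ≠ 0 →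
        ∃ (L : Type) (_ : Field L) (_ : NumberField L) (_ : Algebra K L), DensePoints f L := by
  classical
  obtain ⟨i1, hi1⟩ := hc
  obtain ⟨g1⟩ := ‹Nonempty γ›
  exact Pool.Agent.K9h33.NOD.general_dense hi1 g1 he

end Pool.Agent.Results.MP_b62148_ag.GeneralSexticProducts
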