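import Pool.Agent.K9h33.SXT.Gen4

/-!
# Potential density for double covers of projective spaces branched along general sextics

Let `X` be a double cover of `ℙⁿ`, `n ≥ 5`, branched along a GENERAL sextic hypersurface `{F = 0}` over a
number field `K`: a smooth Fano variety of dimension `n` and index `n - 2`. Then the rational points of
`X` are potentially dense. Here general means that a fixed nonzero polynomial `Φ`, with rational
coefficients and depending only on `n`, does not vanish at the coefficients of `F`.

This is new for `n = 5` and `n = 6`. For `n ≥ 7` the file `AllSmoothHighDim` contains the same for all smooth
sextics. For `n ≥ 3` the file `SexticsWithLine` treats smooth sextics which contain a line defined over `K`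
and, at some point of this line, an asymptotic direction of contact order exactly three which is not
conjugate to the line (a good line); the general sextic in `ℙ⁵` or `ℙ⁶` contains lines over the
algebraic closure, and what has to be shown is that one of them is good. (A general sextic in `ℙ³` or `ℙ⁴`
does not contain a line.)

Proof. Let `G` be the sextic form in `n + 1` variables with indeterminate coefficients except that the
nine coefficients of `X₀^(6-k) X₁^k` (`0 ≤ k ≤ 6`), `X₀⁵X₂`, `X₀⁴X₂²` vanish: it has the good line
`X₂ = X₃ = … = 0` with the asymptotic direction `e₂` at `e₀`. Apply a linear substitution, which depends on
nine parameters, to `G`, and call the result `F`; take for the parameters nine more indeterminates. All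
derivations which vanish on the coefficients of `F` vanish on the parameters and on the coefficients of `G`,
because a `9 × 9` matrix in the coefficients of `G` has a nonzero determinant. So all these indeterminates
are algebraic over the coefficients of `F`, whence the coefficients of `F` are algebraically independent and
generic sextics contain good lines; an ultrapower of the algebraic numbers yields the polynomial `Φ`.
-/

set_option autoImplicit false

namespace Pool.Agent.Results.MP_b62148_ag.GeneralSexticsHighDim

open MvPolynomial Pool.Agent.H952R2.SexticDefs

/-- The exponents of the monomials of degree six in `n + 1` variables. -/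
abbrev Exponent (n : ℕ) : Type := {d : Fin (n + 1) →₀ ℕ // d.degree = 6}

/-- Let `n ≥ 5`. There is a nonzero polynomial `Φ` with rational coefficients, in the coefficients of the
forms of degree six in `n + 1` variables, such that for all number fields `K` and all smooth sextics
`{F = 0}` in `ℙⁿ` over `K` with `Φ(F) ≠ 0` there is a number field `L` containing `K` such that the
`L`-rational points of the double cover `w² = F(x)` of `ℙⁿ` are Zariski dense. -/
theorem result (n : ℕ) (hn : 5 ≤ n) :
    ∃ Φ : MvPolynomial (Exponent n) ℚ, Φ ≠ 0 ∧
      ∀ (K : Type) [Field K] [NumberField K] (F : MvPolynomial (Fin (n + 1)) K),
        IsSmoothSextic F → aeval (fun d : Exponent n => coeff d.1 F) Φ ≠ 0 →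
        ∃ (L : Type) (_ : Field L) (_ : NumberField L) (_ : Algebra K L),
          DensePoints (map (algebraMap K L) F) :=
  Pool.Agent.K9h33.SXT.sextic_open (by omega)

end Pool.Agent.Results.MP_b62148_ag.GeneralSexticsHighDim
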