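import Pool.Agent.K9h33.NOD.Quad

/-!
# Density of rational points on double covers with a fibre branched along a sextic with a double point

Let `K` be a number field and let `X : w² = f(y, u)` be a double cover of an affine space with two
groups of variables `y_i` and `u_0, u_g`, in any numbers. We suppose that the fibre over `y = 0` is a
double cover `w² = f(0, u)` branched along a hypersurface of degree at most SIX with a double point at
`u = 0`:

`f(0, u) = q₂(u) + q₃(u) + … + q₆(u)`, `q₂(e_0) = 0`, `q₃(e_0) ≠ 0`, `B(e_0, e_g) = a ≠ 0`,

where `e_0` and `e_g` are the directions of `u_0` and `u_g`, and `B` is the bilinear form with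
`B(u, u) = q₂(u) · 2`. So `e_0` is a direction in the tangent cone of the branch locus at the double point,
which is not in the vertex of this cone, and in which the branch locus has only the multiplicity three. No
other condition is imposed on the monomials of `f(0, u)`.

The variables `y` are distributed to levels `0, 1, 2, …`, and we suppose that `f` has a small degree in
them in the following weak sense: for each `j` the polynomial which is obtained from `f` by setting all the
`y`-variables of the levels above `j` to zero is `h² q`, where the total degree of `q` in the `y`-variables
of the level `j` is at most two, or it is at most four and one of these variables occurs in the linear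
part of `f`.

Theorem. (1) For all large prime numbers `p` and all number fields `L` containing `K`, if there is an
algebraic integer `t` in `L` divisible by `p³` such that `q₂(e_0 + t e_g) = a t + b t²` is a nonzero
square in `L`, then the points of `X` over `L` are Zariski dense in `X`.

(2) The points of `X` over a suitable quadratic extension `L` of `K` (or over `L = K`) are Zariski
dense in `X`.

Examples are the double covers `X` of `ℙ^{a_1} × … × ℙ^{a_r} × ℙⁿ`, `n ≥ 2`, branched along a hypersurface of
multidegree `(e_1, …, e_r, 6)` with all `e_j ≤ 4`, which has over one rational point `y` of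
`ℙ^{a_1} × … × ℙ^{a_r}` a fibre with one double point. If `n ≥ 3`, or `a_j ≥ 1` and `e_j ≤ 2` for some `j`, or
`a_j ≥ 2` and `e_j ≤ 4` for some `j`, the general such `X` is rationally connected; for example the conic
bundles over the plane which are double covers of `ℙ¹ × ℙ²` branched in bidegree `(2, 6)`, with smooth
discriminant curves of degree `12`, or Fano fourfolds which are double covers of `ℙ¹ × ℙ³` branched
in bidegree `(2, 6)`. Here the fibres over the `y` are K3 surfaces for `n = 2`, and the degree six in the
`u` is not accessible to the methods of the earlier files for this problem, which use curves of genus at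
most one in the directions of all the variables.

Proof. The blow-up of the double point, `u_0 = s`, `u_g = s v_g`, turns `w² = f(0, u)` into
`z² = q₂(1, v) + s q₃(1, v) + … + s⁴ q₆(1, v)`, with `w = s z`. This double cover, and then `X`, is
treated by moving through the levels `v`, `s`, `y`: a point with small coordinates at a place
above `p` and with a small nonzero ordinate lies on curves of genus at most one, with `v` moving in
the conic `z² = q₂(1, v)`, `s` in the curves `z² = q₂ + s q₃ + … + s⁴ q₆`, and `y` in the
directions of a level; the difference of its two points over the same point of the base is in the kernel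
of the reduction and of infinite order, so it has multiples close to the origin, which give points
close to the given one. The points so obtained are dense.
-/

set_option autoImplicit false

namespace Pool.Agent.Results.MP_b62148_ag.NodalFibreDoubleCovers

open MvPolynomial NumberField

/-- The polynomial which is obtained from `f(y, u)` by setting the variables `y_i` of the levels above
`j` to zero; `c i` is the level of the variable `y_i`. -/
noncomputable def restrict {K β γ : Type} [Field K] (c : β → ℕ) (j : ℕ)
    (f : MvPolynomial (β ⊕ Option γ) K) : MvPolynomial (β ⊕ Option γ) K :=
  aeval (Sum.elim (fun i => if c i ≤ j then X (Sum.inl i) else 0) fun o => X (Sum.inr o)) f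

/-- The polynomial `f(y, u)` has in the fibre over `y = 0` a double point in special position, and a small
degree in the variables `y` with respect to the levels `c`: the monomials in `u` alone have degrees
between two and six, the coefficient of `u_0²` is zero, the one of `u_0³` is not zero; and for each `j` the
restriction of `f` to the levels at most `j` is `h² q`, where the total degree of `q` in the `y`-variables
of the level `j` is at most two, or it is at most four and the linear part of `f` contains a `y`-variable
of the level `j`. -/
structure NodalFibre {K β γ : Type} [Field K] [Fintype β] [Fintype γ] (c : β → ℕ)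
    (f : MvPolynomial (β ⊕ Option γ) K) : Prop where
  double : ∀ d ∈ f.support, (∀ i, d (Sum.inl i) = 0) →
    2 ≤ ∑ o, d (Sum.inr o) ∧ ∑ o, d (Sum.inr o) ≤ 6
  square : coeff (Finsupp.single (Sum.inr none) 2) f = 0
  cube : coeff (Finsupp.single (Sum.inr none) 3) f ≠ 0
  levels : ∀ j, ∃ h q : MvPolynomial (β ⊕ Option γ) K, restrict c j f = h ^ 2 * q ∧
    ((∀ d ∈ q.support, ∑ i with c i = j, d (Sum.inl i) ≤ 2) ∨
      ((∀ d ∈ q.support, ∑ i with c i = j, d (Sum.inl i) ≤ 4) ∧
        ∃ i, c i = j ∧ coeff (Finsupp.single (Sum.inl i) 1) f ≠ 0))

/-- The points over the extension `L` of `K` of the double cover `X : w² = f(x)` are Zariski dense in `X`: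
a polynomial `g(w, x)` over `L` which vanishes at all of them is divisible by `w² - f(x)`. -/
def DensePoints {K α : Type} [Field K] (f : MvPolynomial α K) (L : Type) [Field L]
    [Algebra K L] : Prop :=
  ∀ g : MvPolynomial (Option α) L,
    (∀ (x : α → L) (w : L), w ^ 2 = eval x (map (algebraMap K L) f) →
      eval (fun o => o.elim w x) g = 0) →
    (X none ^ 2 - rename some (map (algebraMap K L) f)) ∣ g

/-- Let `f(y, u)` be a polynomial over a number field `K` in variables `y_i`, `i ∈ β`, and `u_0, u_g`,
`g ∈ γ` (`β` and `γ` are finite types, `u_0` is `X (Sum.inr none)`), with a double point in special position in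
the fibre over `y = 0` (`NodalFibre`). Let `a` be the coefficient of `u_0 u_g` and `b` the one of `u_g²`,
for some `g`, and suppose that `a ≠ 0`.

(1) For all large prime numbers `p`, all number fields `L` containing `K` and all algebraic integers `t` in
`L` divisible by `p³` such that `a t + b t²` is the square of a nonzero element of `L`, the points over
`L` of the double cover `X : w² = f(y, u)` are Zariski dense in `X`.

(2) There is an extension `L` of `K` of degree at most two such that the points of `X` over `L` are Zariski
dense in `X`. -/
theorem result (K : Type) [Field K] [NumberField K] (β γ : Type) [Fintype β] [Fintype γ] (c : β → ℕ)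
    (f : MvPolynomial (β ⊕ Option γ) K) (hf : NodalFibre c f) (g : γ) (a b : K)
    (ha : a = coeff (Finsupp.single (Sum.inr none) 1 + Finsupp.single (Sum.inr (some g)) 1) f)
    (hb : b = coeff (Finsupp.single (Sum.inr (some g)) 2) f) (ha0 : a ≠ 0) :
    (∃ N : ℕ, ∀ p : ℕ, p.Prime → N < p → ∀ (L : Type) [Field L] [NumberField L] [Algebra K L]
      (t : 𝓞 L), (p : 𝓞 L) ^ 3 ∣ t → ∀ s : L, s ≠ 0 →
        s ^ 2 = algebraMap K L a * (t : L) + algebraMap K L b * (t : L) ^ 2 → DensePoints f L) ∧
    ∃ (L : Type) (_ : Field L) (_ : NumberField L) (_ : Algebra K L),
      Module.finrank K L ≤ 2 ∧ DensePoints f L := by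
  classical
  subst ha hb
  have hn : Pool.Agent.K9h33.NOD.Node c f := by
    refine ⟨fun d hd => ?_, fun d hd => ?_, hf.square, hf.cube, hf.levels⟩
    · rw [Pool.Agent.K9h33.NOD.mem_sup] at hd
      exact (hf.double d (mem_support_iff.2 hd.1) hd.2).1
    · rw [Pool.Agent.K9h33.NOD.mem_sup] at hd
      exact (hf.double d (mem_support_iff.2 hd.1) hd.2).2
  exact ⟨Pool.Agent.K9h33.NOD.node_point K c f hn g ha0,
    Pool.Agent.K9h33.NOD.node_quad K c f hn g ha0⟩

end Pool.Agent.Results.MP_b62148_ag.NodalFibreDoubleCovers
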